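import Mathlib
import Pool.Agent.H32.PrB

set_option autoImplicit false

namespace Pool.Agent.Results.MP_1dc069_an.MaxLin

open Filter Topology Pool.Agent.H32.Pr
open scoped Nat ContDiff

/-- `g : I → ℝ` is smooth on `I` (one-sided derivatives at end points belonging to `I`) and at every
point `x` of `I` its Taylor series `∑ g^(n)(x)/n! (t-x)^n` has radius of convergence `0`. -/
def IsPS (I : Set ℝ) (g : I → ℝ) : Prop :=
  ∃ F : ℝ → ℝ, (∀ x : I, F x = g x) ∧ ContDiffOn ℝ ∞ F I ∧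
    ∀ x ∈ I, (FormalMultilinearSeries.ofScalars ℝ
      (fun n : ℕ => iteratedDerivWithin n F I x / (n ! : ℝ))).radius = 0

theorem radius_zero {a : ℕ → ℝ} (h : ¬ Bdd a) :
    (FormalMultilinearSeries.ofScalars ℝ a).radius = 0 := by
  by_contra hne
  obtain ⟨r, hr0, hr⟩ := ENNReal.lt_iff_exists_nnreal_btwn.mp (pos_iff_ne_zero.mpr hne)
  obtain ⟨C, hC0, hC⟩ := FormalMultilinearSeries.norm_mul_pow_le_of_lt_radius _ hr
  have hr1 : (0 : ℝ) < r := by exact_mod_cast hr0
  refine h ⟨(C + 1) / r, by positivity, ?_⟩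
  filter_upwards [eventually_ge_atTop 1] with n hn
  have h1 := hC n
  rw [FormalMultilinearSeries.ofScalars_norm, Real.norm_eq_abs] at h1
  rw [div_pow, le_div_iff₀ (by positivity)]
  exact h1.trans ((by linarith : C ≤ C + 1).trans (le_self_pow₀ (by linarith) (by omega)))

theorem ps_of_sum {I : Set ℝ} (hI : UniqueDiffOn ℝ I) {ι : Type} (s : Finset ι) (c l : ι → ℝ)
    (hl : Set.InjOn l s) (hl0 : ∀ i ∈ s, l i ≠ 0) {i₀ : ι} (hi : i₀ ∈ s) (hc : c i₀ ≠ 0)
    (g : I → ℝ) (hg : ∀ x : I, g x = ∑ i ∈ s, c i * Real.exp (l i * ff x)) : IsPS I g := by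
  have hf := ff_smooth
  have hs : ContDiff ℝ ∞ fun x => ∑ i ∈ s, c i * Real.exp (l i * ff x) := by fun_prop
  refine ⟨fun x => ∑ i ∈ s, c i * Real.exp (l i * ff x), fun x => (hg x).symm, hs.contDiffOn, ?_⟩
  intro x hx
  have e : (fun n : ℕ => iteratedDerivWithin n (fun x => ∑ i ∈ s, c i * Real.exp (l i * ff x)) I x
      / (n ! : ℝ)) = fun n : ℕ => iteratedDeriv n (fun x => ∑ i ∈ s, c i * Real.exp (l i * ff x)) x
      / (n ! : ℝ) := by
    funext n
    rw [iteratedDerivWithin_eq_iteratedDeriv hI (hs.contDiffAt.of_le (by exact_mod_cast le_top)) hx]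
  rw [e]
  exact radius_zero (expsum_not_bdd s c l hl hl0 hi hc x)

theorem ps_ne_zero {I : Set ℝ} (hI : I.Nonempty) {g : I → ℝ} (h : IsPS I g) : g ≠ 0 := by
  rintro rfl
  obtain ⟨F, h1, -, h3⟩ := h
  obtain ⟨x, hx⟩ := hI
  have h4 := h3 x hx
  have e : (fun n : ℕ => iteratedDerivWithin n F I x / (n ! : ℝ)) = 0 := by
    funext n
    rw [iteratedDerivWithin_congr (g := fun _ => 0) (fun y hy => h1 ⟨y, hy⟩) hx]
    simp
  rw [e] at h4
  have e2 : FormalMultilinearSeries.ofScalars ℝ (0 : ℕ → ℝ) = 0 :=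
    (FormalMultilinearSeries.ofScalars_series_eq_zero ℝ).mpr rfl
  rw [e2, FormalMultilinearSeries.zero_radius] at h4
  exact absurd h4 (by simp)

/-- For every nondegenerate interval `I`, `PS(I) ∪ {0}` contains a real vector space of dimension
continuum. -/
theorem result (I : Set ℝ) (hI : I.OrdConnected) (hI2 : I.Nontrivial) :
    ∃ M : Submodule ℝ (I → ℝ), Module.rank ℝ M = Cardinal.continuum ∧
      ∀ g ∈ M, g ≠ 0 → IsPS I g := by
  classical
  have hU : UniqueDiffOn ℝ I := by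
    refine uniqueDiffOn_convex hI.convex ?_
    obtain ⟨a, ha, b, hb, hab⟩ := hI2
    rcases lt_or_gt_of_ne hab with h | h
    · exact ⟨(a + b) / 2, interior_mono (hI.out ha hb) (by rw [interior_Icc]; constructor <;> linarith)⟩
    · exact ⟨(a + b) / 2, interior_mono (hI.out hb ha) (by rw [interior_Icc]; constructor <;> linarith)⟩
  let v : ℝ → I → ℝ := fun t x => Real.exp (Real.exp t * ff x)
  have key : ∀ c : ℝ →₀ ℝ, c ≠ 0 → IsPS I (Finsupp.linearCombination ℝ v c) := by
    intro c hc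
    obtain ⟨i, hi⟩ := Finsupp.ne_iff.mp hc
    refine ps_of_sum hU c.support c Real.exp Real.exp_injective.injOn
      (fun j _ => (Real.exp_pos j).ne') (Finsupp.mem_support_iff.mpr hi) hi _ fun x => ?_
    simp [Finsupp.linearCombination_apply, Finsupp.sum, v, Finset.sum_apply]
  have hli : LinearIndependent ℝ v := by
    rw [linearIndependent_iff]
    intro c hc
    by_contra h
    exact ps_ne_zero hI2.nonempty (key c h) hc
  refine ⟨Submodule.span ℝ (Set.range v), ?_, ?_⟩
  · rw [rank_span hli, Cardinal.mk_range_eq _ hli.injective, Cardinal.mk_real]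
  · intro g hg hg0
    obtain ⟨c, rfl⟩ := (Finsupp.mem_span_range_iff_exists_finsupp).mp hg
    refine key c fun h => hg0 ?_
    rw [h]; simp

end Pool.Agent.Results.MP_1dc069_an.MaxLin
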